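import Pool.Agent.helper83.FI4B.Spec

set_option autoImplicit false

namespace Pool.Agent.FI4B

private theorem BON_num (p q n k : ℤ) (hp : 2 ≤ p) (hn : 0 ≤ n) (hq : n + 2 ≤ q) (hqp : q ≤ p) (hk : 1 ≤ k) (hkp : 2 * k < p) :
    n * p * (p ^ 2 - 1) < k ^ 2 * q * (p ^ 2 - 1) + p ^ 2 * (p - 2 * k) * (q - 1) := by
  have h1 : n * (p * (p ^ 2 - 1)) ≤ (q - 2) * (p * (p ^ 2 - 1)) :=
    mul_le_mul_of_nonneg_right (by linarith) (by nlinarith)
  -- the function of `k` is increasing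
  have h2 : q * (p ^ 2 - 1) + p ^ 2 * (p - 2) * (q - 1) ≤ k ^ 2 * q * (p ^ 2 - 1) + p ^ 2 * (p - 2 * k) * (q - 1) := by
    have e : k ^ 2 * q * (p ^ 2 - 1) + p ^ 2 * (p - 2 * k) * (q - 1) - (q * (p ^ 2 - 1) + p ^ 2 * (p - 2) * (q - 1)) =
        (k - 1) * ((k + 1) * (q * (p ^ 2 - 1)) - 2 * p ^ 2 * (q - 1)) := by ring
    have h3 : 2 * (q * (p ^ 2 - 1)) ≤ (k + 1) * (q * (p ^ 2 - 1)) :=
      mul_le_mul_of_nonneg_right (by linarith) (mul_nonneg (by linarith) (by nlinarith))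
    have h4 : 0 ≤ (k + 1) * (q * (p ^ 2 - 1)) - 2 * p ^ 2 * (q - 1) := by nlinarith
    have h5 := mul_nonneg (by linarith : (0 : ℤ) ≤ k - 1) h4
    linarith
  have h6 : (q - 2) * (p * (p ^ 2 - 1)) < q * (p ^ 2 - 1) + p ^ 2 * (p - 2) * (q - 1) := by
    have e : q * (p ^ 2 - 1) + p ^ 2 * (p - 2) * (q - 1) - (q - 2) * (p * (p ^ 2 - 1)) =
        (p - q) * (p ^ 2 - p + 1) + (3 * p ^ 2 - 3 * p) := by ring
    have h7 : 0 ≤ (p - q) * (p ^ 2 - p + 1) := mul_nonneg (by linarith) (by nlinarith)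
    nlinarith
  nlinarith

private theorem BON_sq1 (p κ f m : ℤ) (hp : 0 < p) (hκ : 2 * |κ| < p) (hf : f = κ + p * m) (hm : m ≠ 0) :
    (p - |κ|) ^ 2 ≤ f ^ 2 := by
  rw [← sq_abs f]
  have h1 : 1 ≤ |m| := Int.one_le_abs hm
  have h2 : p - |κ| ≤ |f| := by
    have h3 : |p * m| ≤ |f| + |κ| := by
      have : p * m = f - κ := by rw [hf]; ring
      rw [this]
      exact abs_sub _ _
    rw [abs_mul, abs_of_pos hp] at h3
    nlinarith
  have h0 := abs_nonneg κ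
  exact pow_le_pow_left₀ (by linarith) h2 2

private theorem BON_sq2 (p κ f m : ℤ) (hp : 1 ≤ p) (hκ : 2 * |κ| < p) (hf : f = κ + p ^ 2 * m) :
    |κ| ^ 2 ≤ f ^ 2 := by
  rw [← sq_abs f]
  refine pow_le_pow_left₀ (abs_nonneg _) ?_ 2
  by_cases hm : m = 0
  · subst hm; rw [hf]; simp
  · have h1 : 1 ≤ |m| := Int.one_le_abs hm
    have h3 : |p ^ 2 * m| ≤ |f| + |κ| := by
      have : p ^ 2 * m = f - κ := by rw [hf]; ring
      rw [this]
      exact abs_sub _ _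
    rw [abs_mul, abs_of_nonneg (by positivity : (0 : ℤ) ≤ p ^ 2)] at h3
    nlinarith

theorem BON (hBAV : BAV_stmt) : BON_stmt := by
  classical
  intro p hp D _ _ hD R S hS hRS n hn F c b hc hF hsum
  have := Fintype.ofFinite D
  have : Fact p.Prime := ⟨hp⟩
  have hp2 : 2 ≤ p := hp.two_le
  have hsum2 : ∑ u ∈ (Finset.univ : Finset D).filter (· ∈ R), F u ^ 2 ≤ (n : ℤ) * Nat.card D := by
    refine le_trans (le_of_eq ?_) hsum
    rw [finsum_mem_def, finsum_eq_sum_of_fintype, Finset.sum_filter]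
    refine Finset.sum_congr rfl fun u _ => ?_
    by_cases hu : u ∈ R <;> simp [hu]
  have hD'R : ∀ u, (∀ H ∈ S, u ∉ H) → u ∈ R := by
    intro u hu
    by_contra h
    obtain ⟨H, hH, huH⟩ := hRS u h
    exact hu H hH huH
  -- the case p = 2
  by_cases hp3 : p = 2
  · exfalso
    have hn0 : n = 0 := by omega
    have hS0 : S = ∅ := Finset.card_eq_zero.1 (by omega)
    have hR : ∀ u, u ∈ R := fun u => hD'R u (by simp [hS0])
    have h1 : F 1 ^ 2 ≤ 0 := by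
      refine le_trans (Finset.single_le_sum (f := fun u => F u ^ 2) (fun u _ => sq_nonneg _)
        (Finset.mem_filter.2 ⟨Finset.mem_univ (1 : D), hR 1⟩)) (hsum2.trans ?_)
      simp [hn0]
    have h2 : F 1 = 0 := by nlinarith [sq_nonneg (F 1)]
    have h3 := hF 1 (hR 1)
    rw [h2] at h3
    obtain ⟨y, hy⟩ := h3
    apply hc
    subst hp3
    refine ⟨-(2 * y) - ∑ᶠ V ∈ {V : Subgroup D | V.index = 2 ∧ (1 : D) ∈ V}, b V, ?_⟩
    push_cast at hy ⊢
    linarith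
  -- the residue
  obtain ⟨κ, hκ0, hκp, c', hcκ⟩ : ∃ κ : ℤ, κ ≠ 0 ∧ 2 * |κ| < p ∧ ∃ c' : ℤ, c = κ + p * c' := by
    have hodd : p % 2 = 1 := (Nat.Prime.mod_two_eq_one_iff_ne_two hp).2 hp3
    refine ⟨Int.bmod c p, ?_, ?_, ?_⟩
    · intro h0
      apply hc
      have h1 := Int.bmod_emod (x := c) (m := p)
      rw [h0] at h1
      simp only [Int.zero_emod] at h1
      exact Int.dvd_of_emod_eq_zero h1.symm
    · have h1 := Int.le_bmod (x := c) (m := p) (by omega)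
      have h2 := Int.bmod_lt (x := c) (m := p) (by omega)
      rcases abs_cases (Int.bmod c p) with ⟨h3, -⟩ | ⟨h3, -⟩ <;> rw [h3] <;> omega
    · have h1 : Int.ModEq p (Int.bmod c p) c := Int.bmod_emod
      obtain ⟨y, hy⟩ := h1.dvd
      exact ⟨y, by linarith⟩
  refine ⟨κ, hκ0, hκp, ?_⟩
  -- the function `k`
  obtain ⟨g, hg⟩ : ∃ g : D → ℤ, ∀ u, g u = c' + ∑ᶠ V ∈ {V : Subgroup D | V.index = p ∧ u ∈ V}, b V := ⟨_, fun u => rfl⟩
  have hFg : ∀ u ∈ R, ∃ y : ℤ, F u = κ + p * (g u) + p ^ 2 * y := by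
    intro u hu
    obtain ⟨y, hy⟩ := hF u hu
    refine ⟨y, ?_⟩
    rw [hg]
    rw [hcκ] at hy
    linarith
  have hcast : ∀ u, ((g u : ℤ) : ZMod p) = (c' : ZMod p) + ∑ᶠ V ∈ {V : Subgroup D | V.index = p ∧ u ∈ V}, ((b V : ℤ) : ZMod p) := by
    intro u
    rw [hg u]
    push_cast
    congr 1
    exact (Int.castAddHom (ZMod p)).map_finsum_mem (fun V => b V) (Set.toFinite {V : Subgroup D | V.index = p ∧ u ∈ V})
  by_contra hcon
  push Not at hcon
  obtain ⟨u₀, hu₀, hu₀F⟩ := hcon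
  have hgu₀ : ((g u₀ : ℤ) : ZMod p) ≠ 0 := by
    intro h0
    apply hu₀F
    rw [ZMod.intCast_zmod_eq_zero_iff_dvd] at h0
    obtain ⟨y, hy⟩ := h0
    obtain ⟨y', hy'⟩ := hFg u₀ (hD'R u₀ hu₀)
    exact ⟨y + y', by rw [hy', hy]; ring⟩
  have hB := hBAV p hp D hD (c' : ZMod p) (fun V => ((b V : ℤ) : ZMod p)) S hS (fun u => ((g u : ℤ) : ZMod p)) hcast u₀ hu₀ hgu₀
  obtain ⟨D', hD'⟩ : ∃ D' : Finset D, D' = Finset.univ.filter fun u => ∀ H ∈ S, u ∉ H := ⟨_, rfl⟩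
  obtain ⟨T, hT⟩ : ∃ T : Finset D, T = D'.filter fun u => ((g u : ℤ) : ZMod p) ≠ 0 := ⟨_, rfl⟩
  have hTc : {u : D | (∀ H ∈ S, u ∉ H) ∧ ((g u : ℤ) : ZMod p) ≠ 0}.ncard = T.card := by
    rw [← Set.ncard_coe_finset]
    congr 1
    ext u
    simp [hT, hD']
  rw [hTc] at hB
  -- the union bound
  have hD'c : p * Nat.card D ≤ p * D'.card + S.card * Nat.card D := by
    have h1 : (Finset.univ : Finset D) ⊆ D' ∪ S.biUnion fun H => Finset.univ.filter (· ∈ H) := by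
      intro u _
      rw [Finset.mem_union]
      by_cases hu : ∀ H ∈ S, u ∉ H
      · left; rw [hD']; exact Finset.mem_filter.2 ⟨Finset.mem_univ _, hu⟩
      · right
        push Not at hu
        obtain ⟨H, hH, huH⟩ := hu
        exact Finset.mem_biUnion.2 ⟨H, hH, Finset.mem_filter.2 ⟨Finset.mem_univ _, huH⟩⟩
    have h2 := (Finset.card_le_card h1).trans ((Finset.card_union_le _ _).trans (Nat.add_le_add_left Finset.card_biUnion_le _))
    have h3 : ∀ H ∈ S, p * (Finset.univ.filter (· ∈ H) : Finset D).card = Nat.card D := by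
      intro H hH
      have h4 : (Finset.univ.filter (· ∈ H) : Finset D).card = Nat.card H := by
        rw [Nat.card_eq_fintype_card, Fintype.card_subtype]
      rw [h4, ← hS H hH, mul_comm]
      exact H.card_mul_index
    have h5 : Nat.card D = (Finset.univ : Finset D).card := by
      rw [Nat.card_eq_fintype_card, Finset.card_univ]
    calc p * Nat.card D = p * (Finset.univ : Finset D).card := by rw [h5]
      _ ≤ p * (D'.card + ∑ H ∈ S, (Finset.univ.filter (· ∈ H) : Finset D).card) := Nat.mul_le_mul_left _ h2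
      _ = p * D'.card + ∑ H ∈ S, p * (Finset.univ.filter (· ∈ H) : Finset D).card := by rw [mul_add, Finset.mul_sum]
      _ = p * D'.card + S.card * Nat.card D := by rw [Finset.sum_congr rfl h3, Finset.sum_const, smul_eq_mul]
  -- the lower bound of the sum
  have hlow : |κ| ^ 2 * ((D'.card : ℤ) - T.card) + ((p : ℤ) - |κ|) ^ 2 * T.card ≤ (n : ℤ) * Nat.card D := by
    refine le_trans ?_ hsum2
    have hsub : D' ⊆ (Finset.univ : Finset D).filter (· ∈ R) := by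
      intro u hu
      rw [hD', Finset.mem_filter] at hu
      exact Finset.mem_filter.2 ⟨Finset.mem_univ _, hD'R u hu.2⟩
    refine le_trans ?_ (Finset.sum_le_sum_of_subset_of_nonneg hsub fun u _ _ => sq_nonneg (F u))
    rw [← Finset.sum_filter_add_sum_filter_not D' (fun u => ((g u : ℤ) : ZMod p) ≠ 0), ← hT]
    have h1 : ((p : ℤ) - |κ|) ^ 2 * T.card ≤ ∑ u ∈ T, F u ^ 2 := by
      have : ∑ u ∈ T, ((p : ℤ) - |κ|) ^ 2 = ((p : ℤ) - |κ|) ^ 2 * T.card := by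
        rw [Finset.sum_const, nsmul_eq_mul, mul_comm]
      rw [← this]
      refine Finset.sum_le_sum fun u hu => ?_
      rw [hT, Finset.mem_filter, hD', Finset.mem_filter] at hu
      obtain ⟨y, hy⟩ := hFg u (hD'R u hu.1.2)
      refine BON_sq1 p κ (F u) (g u + p * y) (by exact_mod_cast hp.pos) hκp (by rw [hy]; ring) ?_
      intro h0
      apply hu.2
      rw [ZMod.intCast_zmod_eq_zero_iff_dvd]
      exact ⟨-y, by linarith⟩
    have h2 : |κ| ^ 2 * ((D'.card : ℤ) - T.card) ≤ ∑ u ∈ D' with ¬ ((g u : ℤ) : ZMod p) ≠ 0, F u ^ 2 := by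
      have hc2 : ((D'.card : ℤ) - T.card) = ((D'.filter fun u => ¬ ((g u : ℤ) : ZMod p) ≠ 0).card : ℤ) := by
        have := Finset.card_filter_add_card_filter_not (s := D') (fun u => ((g u : ℤ) : ZMod p) ≠ 0)
        rw [← hT] at this
        omega
      rw [hc2]
      have : ∑ u ∈ D' with ¬ ((g u : ℤ) : ZMod p) ≠ 0, |κ| ^ 2 = |κ| ^ 2 * ((D'.filter fun u => ¬ ((g u : ℤ) : ZMod p) ≠ 0).card : ℤ) := by
        rw [Finset.sum_const, nsmul_eq_mul, mul_comm]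
      rw [← this]
      refine Finset.sum_le_sum fun u hu => ?_
      rw [Finset.mem_filter, hD', Finset.mem_filter, not_not, ZMod.intCast_zmod_eq_zero_iff_dvd] at hu
      obtain ⟨y, hy⟩ := hFg u (hD'R u hu.1.2)
      obtain ⟨y', hy'⟩ := hu.2
      exact BON_sq2 p κ (F u) (y' + y) (by exact_mod_cast hp.one_le) hκp (by rw [hy, hy']; ring)
    linarith
  -- the end
  have hd : (0 : ℤ) < Nat.card D := by exact_mod_cast Nat.card_pos
  have hnum := BON_num p ((p : ℤ) - S.card) n |κ| (by exact_mod_cast hp2) (by positivity) (by omega) (by omega)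
    (Int.one_le_abs hκ0) hκp
  have hB' : ((p : ℤ) - S.card - 1) * Nat.card D ≤ ((p : ℤ) ^ 2 - 1) * T.card := by
    have h1 : 1 ≤ p ^ 2 := Nat.one_le_pow _ _ hp.pos
    zify [h1] at hB
    linarith
  have hD'' : ((p : ℤ) - S.card) * Nat.card D ≤ p * D'.card := by
    zify at hD'c
    linarith
  have hp2' : (0 : ℤ) ≤ (p : ℤ) ^ 2 - 1 := by
    have : (2 : ℤ) ≤ p := by exact_mod_cast hp2
    nlinarith
  have hpp : (0 : ℤ) < p := by exact_mod_cast hp.pos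
  have hl2 : |κ| ^ 2 * D'.card + p * (p - 2 * |κ|) * T.card ≤ (n : ℤ) * Nat.card D := by
    have e : |κ| ^ 2 * ((D'.card : ℤ) - T.card) + ((p : ℤ) - |κ|) ^ 2 * T.card =
        |κ| ^ 2 * D'.card + p * (p - 2 * |κ|) * T.card := by ring
    rw [← e]; exact hlow
  have h1 := mul_le_mul_of_nonneg_left hl2 (mul_nonneg hpp.le hp2')
  have h2 : |κ| ^ 2 * ((p : ℤ) ^ 2 - 1) * (((p : ℤ) - S.card) * Nat.card D) ≤ |κ| ^ 2 * ((p : ℤ) ^ 2 - 1) * (p * D'.card) :=
    mul_le_mul_of_nonneg_left hD'' (mul_nonneg (sq_nonneg _) hp2')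
  have h3 : (p : ℤ) ^ 2 * (p - 2 * |κ|) * (((p : ℤ) - S.card - 1) * Nat.card D) ≤ (p : ℤ) ^ 2 * (p - 2 * |κ|) * (((p : ℤ) ^ 2 - 1) * T.card) :=
    mul_le_mul_of_nonneg_left hB' (mul_nonneg (sq_nonneg _) (by linarith))
  have h4 : (n * p * ((p : ℤ) ^ 2 - 1)) * Nat.card D < (|κ| ^ 2 * ((p : ℤ) - S.card) * ((p : ℤ) ^ 2 - 1) + (p : ℤ) ^ 2 * (p - 2 * |κ|) * ((p : ℤ) - S.card - 1)) * Nat.card D :=
    mul_lt_mul_of_pos_right hnum hd
  nlinarith

end Pool.Agent.FI4B
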